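import Pool.Agent.X234.OM.Basic
import Pool.Agent.Helper344.CompList

/-!
A set `A` such that every infinite subset of `A` or of its complement simplifies some strings.
-/

set_option autoImplicit false

namespace Pool.Agent.X234.OM

open Encodable Nat.Partrec Pool.Agent.Helper446.RE Pool.Agent.Helper750.DC
open Pool.Agent.Helper760.Kolm

/-! ### arithmetic -/

theorem exists_big (c d : ℕ) : ∃ a0, ∀ a, a0 ≤ a → c * Nat.size a + d ≤ a := by
  refine ⟨2 ^ (8 * (c + d + 1)), fun a ha => ?_⟩
  have h1 : 8 * (c + d + 1) < Nat.size a := by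
    rw [Nat.lt_size]
    exact ha
  obtain ⟨n, hn⟩ : ∃ n, Nat.size a = n := ⟨_, rfl⟩
  rw [hn] at h1 ⊢
  have h2 : 2 ^ (n - 1) ≤ a := by
    rw [← Nat.lt_size, hn]
    omega
  obtain ⟨k, hk⟩ : ∃ k, n - 1 = 2 * k ∨ n - 1 = 2 * k + 1 := by
    exact ⟨(n - 1) / 2, by omega⟩
  have h3 : (k + 1) * (k + 1) ≤ 2 ^ (n - 1) := by
    have h4 : k + 1 ≤ 2 ^ k := Nat.lt_two_pow_self
    calc (k + 1) * (k + 1) ≤ 2 ^ k * 2 ^ k := Nat.mul_le_mul h4 h4
      _ = 2 ^ (2 * k) := by rw [← pow_add]; congr 1; omega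
      _ ≤ 2 ^ (n - 1) := Nat.pow_le_pow_right (by norm_num) (by omega)
  have h5 : n ≤ 2 * (k + 1) := by omega
  have h6 : 4 * (c + d + 1) ≤ k + 1 := by omega
  have h7 : c * n ≤ c * (2 * (k + 1)) := Nat.mul_le_mul_left c h5
  have h8 : 4 * (c + d + 1) * (k + 1) ≤ (k + 1) * (k + 1) := Nat.mul_le_mul_right _ h6
  have h9 : d ≤ d * (k + 1) := Nat.le_mul_of_pos_right _ (by omega)
  nlinarith

/-! ### the numbers -/

/-- the first number whose complexity is not known at time `t` to be at most `2 a` -/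
theorem ex_ii (a t : ℕ) : ∃ i : ℕ, ¬ Kle t (2 * a) i () := by
  by_contra hc
  push Not at hc
  have h := card_le () (2 * a) (Finset.range (2 ^ (2 * a + 1))) (fun i _ =>
    (K_le_iff _ _ _).2 ⟨t, hc i⟩)
  rw [Finset.card_range] at h
  exact lt_irrefl _ h

theorem ex_is (a : ℕ) : ∃ i : ℕ, ¬ K i () ≤ 2 * a := by
  by_contra hc
  push Not at hc
  have h := card_le () (2 * a) (Finset.range (2 ^ (2 * a + 1))) (fun i _ => hc i)
  rw [Finset.card_range] at h
  exact lt_irrefl _ h

open Classical in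
noncomputable def ii (a t : ℕ) : ℕ := Nat.find (ex_ii a t)

open Classical in
noncomputable def is (a : ℕ) : ℕ := Nat.find (ex_is a)

theorem ii_mono {a t t' : ℕ} (h : t ≤ t') : ii a t ≤ ii a t' := by
  classical
  refine Nat.find_min' _ fun h1 => ?_
  exact Nat.find_spec (ex_ii a t') (Kle_mono h h1)

theorem ii_le (a t : ℕ) : ii a t ≤ is a := by
  classical
  refine Nat.find_min' _ fun h1 => ?_
  exact Nat.find_spec (ex_is a) ((K_le_iff _ _ _).2 ⟨t, h1⟩)

theorem is_spec (a : ℕ) : 2 * a < K (is a) () := by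
  classical
  exact not_le.1 (Nat.find_spec (ex_is a))

theorem is_lt (a : ℕ) : is a < 2 ^ (2 * a + 1) := by
  classical
  by_contra hc
  push Not at hc
  have h := card_le () (2 * a) (Finset.range (2 ^ (2 * a + 1))) (fun i hi => by
    rw [Finset.mem_range] at hi
    by_contra h1
    exact Nat.find_min (ex_is a) (lt_of_lt_of_le hi hc) h1)
  rw [Finset.card_range] at h
  exact lt_irrefl _ h

theorem ii_lim (a : ℕ) : ∃ t, ii a t = is a := by
  classical
  have h1 : ∀ i < is a, ∃ t, Kle t (2 * a) i () := by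
    intro i hi
    have h2 := Nat.find_min (ex_is a) hi
    rw [not_not] at h2
    exact (K_le_iff _ _ _).1 h2
  choose! f hf using h1
  refine ⟨(Finset.range (is a)).sup f, le_antisymm (ii_le a _) ?_⟩
  by_contra hc
  push Not at hc
  have h3 := hf _ hc
  have h4 : f (ii a ((Finset.range (is a)).sup f)) ≤ (Finset.range (is a)).sup f :=
    Finset.le_sup (f := f) (Finset.mem_range.2 hc)
  exact Nat.find_spec (ex_ii a ((Finset.range (is a)).sup f)) (Kle_mono h4 h3)

theorem ii_comp : Computable fun x : ℕ × ℕ => ii x.1 x.2 := by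
  classical
  have h1 : Computable₂ fun (x : ℕ × ℕ) (i : ℕ) => decide (¬ Kle x.2 (2 * x.1) i ()) := by
    have h2 : PrimrecPred fun x : (ℕ × ℕ) × ℕ => Kle x.1.2 (2 * x.1.1) x.2 () := by
      refine primrec_Kle.comp (Primrec.pair (Primrec.snd.comp Primrec.fst) (Primrec.pair
        (Primrec.nat_mul.comp (Primrec.const 2) (Primrec.fst.comp Primrec.fst)) (Primrec.pair
        Primrec.snd (Primrec.const ()))))
    exact cdecide (cp_not h2.computablePred)
  have h3 := Pool.Agent.Helper344.CL.find_comp h1 (fun x => by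
    obtain ⟨i, hi⟩ := ex_ii x.1 x.2
    exact ⟨i, by simpa using hi⟩)
  refine h3.of_eq fun x => ?_
  unfold ii
  congr 1
  funext i
  simp

/-- first time at which the leading part is correct -/
theorem ex_T1 (a : ℕ) : ∃ t, ii a t / 2 ^ a = is a / 2 ^ a := by
  obtain ⟨t, ht⟩ := ii_lim a
  exact ⟨t, by rw [ht]⟩

open Classical in
noncomputable def T1 (a : ℕ) : ℕ := Nat.find (ex_T1 a)

open Classical in
noncomputable def T2 (a : ℕ) : ℕ := Nat.find (ii_lim a)

theorem T1_spec {a t : ℕ} (h : T1 a ≤ t) : ii a t / 2 ^ a = is a / 2 ^ a := by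
  classical
  refine le_antisymm (Nat.div_le_div_right (ii_le a t)) ?_
  rw [← Nat.find_spec (ex_T1 a)]
  exact Nat.div_le_div_right (ii_mono h)

theorem T2_spec {a t : ℕ} (h : T2 a ≤ t) : ii a t = is a := by
  classical
  refine le_antisymm (ii_le a t) ?_
  have h1 := Nat.find_spec (ii_lim a)
  rw [← h1]
  exact ii_mono h

/-! ### the set -/

/-- block boundaries -/
noncomputable def mm : ℕ → ℕ
  | 0 => 0
  | j + 1 => mm j + 1 + T1 (mm j + j + 1) + 1 + T2 (mm j + j + 1)

/-- the set -/
def AA : Set ℕ := {n | ∃ j, mm j ≤ n ∧ n < mm j + 1 + T1 (mm j + j + 1)}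

theorem mm_mono : StrictMono mm := by
  refine strictMono_nat_of_lt_succ fun j => ?_
  rw [mm]
  omega

theorem not_mem_AA {j n : ℕ} (h1 : mm j + 1 + T1 (mm j + j + 1) ≤ n) (h2 : n < mm (j + 1)) :
    n ∉ AA := by
  rintro ⟨i, h3, h4⟩
  rcases lt_trichotomy i j with h | h | h
  · have h5 : mm (i + 1) ≤ mm j := mm_mono.monotone h
    rw [mm] at h5
    omega
  · subst h; omega
  · have h5 : mm (j + 1) ≤ mm i := mm_mono.monotone h
    omega

/-! ### next elements -/

/-- `t` is the first element `≥ b` of the set with initial segment `τ` -/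
def Nxt (τ : Str) (b t : ℕ) : Prop :=
  b ≤ t ∧ τ[t]? = some true ∧ ∀ t' < t, b ≤ t' → ¬ τ[t']? = some true

theorem Nxt_comp {α : Type*} [Primcodable α] {τ : α → Str} {b t : α → ℕ} (hτ : Computable τ)
    (hb : Computable b) (ht : Computable t) : ComputablePred fun a => Nxt (τ a) (b a) (t a) := by
  unfold Nxt
  refine cp_and (cp_le hb ht) (cp_and (cp_eq (by fun_prop) (by fun_prop)) ?_)
  refine cp_all_lt (p := fun a t' => b a ≤ t' → ¬ (τ a)[t']? = some true) ?_ ht
  exact cp_imp (cp_le (by fun_prop) (by fun_prop)) (cp_not (cp_eq (by fun_prop) (by fun_prop)))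

theorem Nxt_ini {X : ℕ → Bool} {k b t : ℕ} (h : Nxt (ini X k) b t) :
    b ≤ t ∧ X t = true ∧ ∀ t' < t, b ≤ t' → X t' = false := by
  obtain ⟨h1, h2, h3⟩ := h
  have htk : t < k := by
    by_contra hc
    rw [List.getElem?_eq_none (by simpa using hc)] at h2
    simp at h2
  rw [getElem_ini X htk] at h2
  refine ⟨h1, by simpa using h2, fun t' ht' hb => ?_⟩
  have h4 := h3 t' ht' hb
  rw [getElem_ini X (ht'.trans htk)] at h4
  simpa using h4

theorem Nxt_uniq {X : ℕ → Bool} {k k' b t t' : ℕ} (h : Nxt (ini X k) b t)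
    (h' : Nxt (ini X k') b t') : t = t' := by
  obtain ⟨h1, h2, h3⟩ := Nxt_ini h
  obtain ⟨h1', h2', h3'⟩ := Nxt_ini h'
  rcases lt_trichotomy t t' with hlt | heq | hlt
  · have := h3' t hlt h1
    rw [h2] at this
    exact absurd this (by simp)
  · exact heq
  · have := h3 t' hlt h1'
    rw [h2'] at this
    exact absurd this (by simp)

theorem exists_Nxt {X : ℕ → Bool} (hX : {n | X n = true}.Infinite) (b : ℕ) :
    ∃ t, Nxt (ini X (t + 1)) b t ∧ b ≤ t ∧ X t = true := by
  classical
  have hex : ∃ t, b ≤ t ∧ X t = true := by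
    obtain ⟨t, ht, hb⟩ := hX.exists_gt b
    exact ⟨t, hb.le, ht⟩
  obtain ⟨h1, h2⟩ := Nat.find_spec hex
  refine ⟨Nat.find hex, ⟨h1, ?_, fun t' ht' hb h => ?_⟩, h1, h2⟩
  · rw [getElem_ini X (Nat.lt_succ_self _), h2]
  · rw [getElem_ini X (ht'.trans (Nat.lt_succ_self _))] at h
    exact Nat.find_min hex ht' ⟨hb, by simpa using h⟩

/-! ### the two machines -/

/-- first machine: axioms -/
def W1 (τ q s : Str) : Prop := ∃ t < τ.length, Nxt τ (numOf q).unpair.2 t ∧
  s = Nat.bits (ii (numOf q).unpair.1 t / 2 ^ (numOf q).unpair.1 * 2 ^ (numOf q).unpair.1 +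
    val (restOf q))

/-- second machine: axioms -/
def W2 (τ q s : Str) : Prop := ∃ t < τ.length, ∃ t1 : ℕ,
  (ii (numOf q).unpair.1 t1 / 2 ^ (numOf q).unpair.1 = val (restOf q) ∧
    ∀ t' < t1, ¬ ii (numOf q).unpair.1 t' / 2 ^ (numOf q).unpair.1 = val (restOf q)) ∧
  Nxt τ ((numOf q).unpair.2 + 1 + t1) t ∧ s = Nat.bits (ii (numOf q).unpair.1 t)

theorem bits_rec (n : ℕ) (h : n ≠ 0) : Nat.bits n = decide (n % 2 = 1) :: Nat.bits (n / 2) := by
  have h1 : n = Nat.bit (decide (n % 2 = 1)) (n / 2) := by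
    rw [Nat.bit_val]
    rcases Nat.mod_two_eq_zero_or_one n with h0 | h0
    · rw [h0]; simp; omega
    · rw [h0]; simp; omega
  conv_lhs => rw [h1]
  rw [Nat.bits_append_bit]
  intro h0
  have : n = 1 := by omega
  rw [this]; rfl

theorem primrec_bits : Primrec Nat.bits := by
  have h : Primrec₂ (fun (_ : Unit) (n : ℕ) => Nat.bits n) := by
    refine Primrec.nat_strong_rec (fun (_ : Unit) (n : ℕ) => Nat.bits n)
      (g := fun (_ : Unit) (L : List (List Bool)) => if L.length = 0 then some [] else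
        (L[L.length / 2]?).map fun l => decide (L.length % 2 = 1) :: l) ?_ ?_
    · refine Primrec.ite ?_ (Primrec.const _) ?_
      · exact Primrec.eq.comp (Primrec.list_length.comp Primrec.snd) (Primrec.const 0)
      · refine Primrec.option_map ?_ ?_
        · exact Primrec.list_getElem?.comp Primrec.snd
            (Primrec.nat_div.comp (Primrec.list_length.comp Primrec.snd) (Primrec.const 2))
        · refine Primrec.list_cons.comp ?_ Primrec.snd
          exact (PrimrecPred.decide (Primrec.eq.comp (Primrec.nat_mod.comp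
            (Primrec.list_length.comp (Primrec.snd.comp Primrec.fst)) (Primrec.const 2))
            (Primrec.const 1)))
    · intro _ n
      simp only [List.length_map, List.length_range]
      split_ifs with h0
      · subst h0; rfl
      · have h1 : n / 2 < n := Nat.div_lt_self (Nat.pos_of_ne_zero h0) (by norm_num)
        rw [List.getElem?_map, List.getElem?_range h1, Option.map_some, Option.map_some,
          ← bits_rec n h0]
  exact h.comp (Primrec.const ()) Primrec.id

theorem rpow_comp {α : Type*} [Primcodable α] {f g : α → ℕ} (hf : Computable f)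
    (hg : Computable g) : Computable (fun x => f x ^ g x) := by
  have h : Primrec₂ (fun a b : ℕ => a ^ b) := Primrec₂.unpaired'.1 Nat.Primrec.pow
  exact h.to_comp.comp hf hg

theorem rdiv_comp {α : Type*} [Primcodable α] {f g : α → ℕ} (hf : Computable f)
    (hg : Computable g) : Computable (fun x => f x / g x) := Primrec.nat_div.to_comp.comp hf hg

theorem rii_comp {α : Type*} [Primcodable α] {f g : α → ℕ} (hf : Computable f)
    (hg : Computable g) : Computable (fun x => ii (f x) (g x)) :=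
  Computable.comp (f := fun x : ℕ × ℕ => ii x.1 x.2) (g := fun x => (f x, g x)) ii_comp (hf.pair hg)

theorem rbits_comp {α : Type*} [Primcodable α] {f : α → ℕ} (hf : Computable f) :
    Computable (fun x => Nat.bits (f x)) := primrec_bits.to_comp.comp hf

theorem rnum_comp {α : Type*} [Primcodable α] {f : α → Str} (hf : Computable f) :
    Computable (fun x => numOf (f x)) := primrec_numOf.to_comp.comp hf

theorem rrest_comp {α : Type*} [Primcodable α] {f : α → Str} (hf : Computable f) :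
    Computable (fun x => restOf (f x)) := primrec_restOf.to_comp.comp hf

theorem rval_comp {α : Type*} [Primcodable α] {f : α → Str} (hf : Computable f) :
    Computable (fun x => val (f x)) := primrec_val.to_comp.comp hf

attribute [local fun_prop] rpow_comp rdiv_comp rii_comp rbits_comp rnum_comp rrest_comp rval_comp

theorem W1_machine : OracleMachine W1 := by
  constructor
  · unfold W1
    refine (cp_ex_lt (p := fun (q : Str × Str × Str) t => Nxt q.1 (numOf q.2.1).unpair.2 t ∧
      q.2.2 = Nat.bits (ii (numOf q.2.1).unpair.1 t / 2 ^ (numOf q.2.1).unpair.1 *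
        2 ^ (numOf q.2.1).unpair.1 + val (restOf q.2.1))) ?_ (by fun_prop)).to_re
    refine cp_and (Nxt_comp (by fun_prop) (by fun_prop) (by fun_prop)) (cp_eq (by fun_prop) ?_)
    fun_prop
  · rintro X p s s' ⟨k, t, -, h1, h2⟩ ⟨k', t', -, h1', h2'⟩
    have := Nxt_uniq h1 h1'
    subst this
    rw [h2, h2']

theorem W2_machine : OracleMachine W2 := by
  constructor
  · unfold W2
    have h1 : ComputablePred fun x : ((Str × Str × Str) × ℕ) × ℕ =>
        (ii (numOf x.1.1.2.1).unpair.1 x.2 / 2 ^ (numOf x.1.1.2.1).unpair.1 =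
          val (restOf x.1.1.2.1) ∧
        ∀ t' < x.2, ¬ ii (numOf x.1.1.2.1).unpair.1 t' / 2 ^ (numOf x.1.1.2.1).unpair.1 =
          val (restOf x.1.1.2.1)) ∧
        Nxt x.1.1.1 ((numOf x.1.1.2.1).unpair.2 + 1 + x.2) x.1.2 ∧
        x.1.1.2.2 = Nat.bits (ii (numOf x.1.1.2.1).unpair.1 x.1.2) := by
      refine cp_and (cp_and (cp_eq (by fun_prop) (by fun_prop)) ?_)
        (cp_and (Nxt_comp (by fun_prop) (by fun_prop) (by fun_prop))
          (cp_eq (by fun_prop) (by fun_prop)))
      refine cp_all_lt (p := fun (x : ((Str × Str × Str) × ℕ) × ℕ) t' =>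
        ¬ ii (numOf x.1.1.2.1).unpair.1 t' / 2 ^ (numOf x.1.1.2.1).unpair.1 =
          val (restOf x.1.1.2.1)) ?_ (by fun_prop)
      exact cp_not (cp_eq (by fun_prop) (by fun_prop))
    have h2 := exN (p := fun (x : (Str × Str × Str) × ℕ) t1 =>
      (ii (numOf x.1.2.1).unpair.1 t1 / 2 ^ (numOf x.1.2.1).unpair.1 = val (restOf x.1.2.1) ∧
        ∀ t' < t1, ¬ ii (numOf x.1.2.1).unpair.1 t' / 2 ^ (numOf x.1.2.1).unpair.1 =
          val (restOf x.1.2.1)) ∧
        Nxt x.1.1 ((numOf x.1.2.1).unpair.2 + 1 + t1) x.2 ∧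
        x.1.2.2 = Nat.bits (ii (numOf x.1.2.1).unpair.1 x.2)) h1.to_re
    have h3 := exN (p := fun (x : Str × Str × Str) t => t < x.1.length ∧ ∃ t1 : ℕ,
      (ii (numOf x.2.1).unpair.1 t1 / 2 ^ (numOf x.2.1).unpair.1 = val (restOf x.2.1) ∧
        ∀ t' < t1, ¬ ii (numOf x.2.1).unpair.1 t' / 2 ^ (numOf x.2.1).unpair.1 =
          val (restOf x.2.1)) ∧
        Nxt x.1 ((numOf x.2.1).unpair.2 + 1 + t1) t ∧
        x.2.2 = Nat.bits (ii (numOf x.2.1).unpair.1 t))
      (Pool.Agent.Helper446.RE.and (Pool.Agent.Helper446.RE.lt (by fun_prop) (by fun_prop)) h2)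
    exact h3
  · rintro X p s s' ⟨k, t, -, t1, ⟨ha, hb⟩, h1, h2⟩ ⟨k', t', -, t1', ⟨ha', hb'⟩, h1', h2'⟩
    have h3 : t1 = t1' := by
      rcases lt_trichotomy t1 t1' with hlt | heq | hlt
      · exact absurd ha (hb' t1 hlt)
      · exact heq
      · exact absurd ha' (hb t1' hlt)
    subst h3
    have := Nxt_uniq h1 h1'
    subst this
    rw [h2, h2']

/-- both cases: the string number `is a` is simple relative to `X` -/
theorem upper {W : Str → Str → Str → Prop} (hW : Universal W) : ∃ c : ℕ, ∀ (X : ℕ → Bool),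
    {n | X n = true}.Infinite → ({n | X n = true} ⊆ AA ∨ {n | X n = true} ⊆ AAᶜ) → ∀ j,
      CX W X (Nat.bits (is (mm j + j + 1))) ≤
        (mm j + j + 1) + 4 * Nat.size (mm j + j + 1) + c := by
  obtain ⟨c1, hc1⟩ := CX_sim hW W1_machine
  obtain ⟨c2, hc2⟩ := CX_sim hW W2_machine
  refine ⟨c1 + c2 + 2, fun X hX hcase j => ?_⟩
  obtain ⟨a, ha⟩ : ∃ a, mm j + j + 1 = a := ⟨_, rfl⟩
  have hsz : Nat.size (Nat.pair a (mm j)) ≤ 2 * Nat.size a := by
    refine (size_pair_le _ _).trans ?_
    have : Nat.size (mm j) ≤ Nat.size a := Nat.size_le_size (by omega)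
    omega
  rw [ha]
  rcases hcase with hA | hA
  · -- second machine
    obtain ⟨p, hp, hpv⟩ := exists_val (is a / 2 ^ a) (a + 1) (by
      have h1 := is_lt a
      rw [Nat.div_lt_iff_lt_mul (by positivity), ← pow_add]
      refine h1.trans_le (Nat.pow_le_pow_right (by norm_num) (by omega)))
    have hout : Out W2 X (putNum (Nat.pair a (mm j)) p) (Nat.bits (is a)) := by
      obtain ⟨t, ht1, ht2, ht3⟩ := exists_Nxt hX (mm j + 1 + T1 a)
      refine ⟨t + 1, t, by simp, T1 a, ?_, ?_, ?_⟩
      · rw [numOf_putNum, restOf_putNum, Nat.unpair_pair, hpv]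
        refine ⟨T1_spec le_rfl, fun t' ht' => ?_⟩
        classical
        exact Nat.find_min (ex_T1 a) ht'
      · rw [numOf_putNum, Nat.unpair_pair]
        exact ht1
      · rw [numOf_putNum, Nat.unpair_pair]
        dsimp only
        rw [T2_spec]
        have hmem : t ∈ AA := hA ht3
        by_contra hlt
        refine not_mem_AA (j := j) ?_ ?_ hmem
        · rw [ha]; exact ht2
        · rw [mm, ha]; omega
    have h1 := hc2 X _ _ hout
    rw [length_putNum] at h1
    omega
  · obtain ⟨p, hp, hpv⟩ := exists_val (is a % 2 ^ a) a (Nat.mod_lt _ (by positivity))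
    have hout : Out W1 X (putNum (Nat.pair a (mm j)) p) (Nat.bits (is a)) := by
      obtain ⟨t, ht1, ht2, ht3⟩ := exists_Nxt hX (mm j)
      refine ⟨t + 1, t, by simp, ?_, ?_⟩
      · rw [numOf_putNum, Nat.unpair_pair]
        exact ht1
      · rw [numOf_putNum, restOf_putNum, Nat.unpair_pair, hpv]
        dsimp only
        rw [T1_spec, Nat.div_add_mod']
        have hmem : t ∉ AA := hA ht3
        by_contra hlt
        refine hmem ⟨j, ht2, ?_⟩
        rw [ha]; omega
    have h1 := hc1 X _ _ hout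
    rw [length_putNum] at h1
    omega

/-! ### conditional complexity -/

/-- an optimal conditional machine with natural numbers as conditions -/
def OptimalCond (D : Str → ℕ →. Str) : Prop :=
  Partrec₂ D ∧ ∀ E : Str → ℕ →. Str, Partrec₂ E →
    ∃ c : ℕ, ∀ p n s, s ∈ E p n → ∃ q : Str, q.length ≤ p.length + c ∧ s ∈ D q n

/-- complexity of `s` given `n` -/
noncomputable def CD (D : Str → ℕ →. Str) (s : Str) (n : ℕ) : ℕ :=
  sInf {m | ∃ p : Str, p.length = m ∧ s ∈ D p n}

theorem exists_optimalCond : ∃ D, OptimalCond D := by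
  refine ⟨fun p y => (M p y).bind fun n => Part.ofOption (decode (α := List Bool) n), ?_, ?_⟩
  · exact Partrec.bind partrec_M ((Computable.decode.comp Computable.snd).ofOption)
  · intro E hE
    obtain ⟨c, hc⟩ := M_opt (fun p y => (E p y).map encode)
      (Partrec.map hE (Computable.encode.comp Computable.snd).to₂)
    refine ⟨c + 1, fun p y s hs => ⟨List.replicate c true ++ false :: p, by simp; omega, ?_⟩⟩
    simp only [Part.mem_bind_iff]
    exact ⟨encode s, hc p y (encode s) (Part.mem_map encode hs), by simp⟩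

theorem CD_spec {D : Str → ℕ →. Str} (hD : OptimalCond D) (s : Str) (n : ℕ) :
    ∃ p : Str, p.length = CD D s n ∧ s ∈ D p n := by
  obtain ⟨c, hc⟩ := hD.2 (fun p _ => Part.some p)
    (Partrec.comp (Partrec.some (α := List Bool)) Computable.fst)
  have h : {m : ℕ | ∃ p : List Bool, p.length = m ∧ s ∈ D p n}.Nonempty := by
    obtain ⟨q, -, hq⟩ := hc s n s (Part.mem_some s)
    exact ⟨q.length, q, rfl, hq⟩
  exact Nat.sInf_mem h

theorem CD_len {D : Str → ℕ →. Str} (hD : OptimalCond D) : ∃ c : ℕ, ∀ s n, CD D s n ≤ s.length + c := by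
  obtain ⟨c, hc⟩ := hD.2 (fun p _ => Part.some p)
    (Partrec.comp (Partrec.some (α := List Bool)) Computable.fst)
  refine ⟨c, fun s n => ?_⟩
  obtain ⟨q, hq, hq2⟩ := hc s n s (Part.mem_some s)
  have h1 : CD D s n ≤ q.length := Nat.sInf_le ⟨q, rfl, hq2⟩
  exact h1.trans hq

theorem lower {D : Str → ℕ →. Str} (hD : OptimalCond D) (N : ℕ) :
    ∃ c : ℕ, ∀ i : ℕ, K i () ≤ CD D (Nat.bits i) N + c := by
  let φ : Unit × Str × Unit →. ℕ := fun x => (D x.2.1 N).map val
  have hφ : Partrec φ := by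
    refine Partrec.map ?_ (primrec_val.to_comp.comp Computable.snd).to₂
    exact Partrec.comp hD.1 (by fun_prop : Computable fun x : Unit × Str × Unit => (x.2.1, N))
  obtain ⟨c, hc⟩ := K_param φ hφ
  refine ⟨c, fun i => ?_⟩
  obtain ⟨p, hp, hp2⟩ := CD_spec hD (Nat.bits i) N
  have h := hc () p () i (by
    have h1 := Part.mem_map val hp2
    rw [val_bits] at h1
    exact h1)
  simp only [size_encode_unit] at h
  omega

theorem main : ∀ W, Universal W → ∀ D, OptimalCond D → ∀ N B : ℕ, ∃ s : Str, ∀ X : ℕ → Bool,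
    {n | X n = true}.Infinite → ({n | X n = true} ⊆ AA ∨ {n | X n = true} ⊆ AAᶜ) →
      CX W X s + B ≤ CD D s N := by
  intro W hW D hD N B
  obtain ⟨c, hc⟩ := upper hW
  obtain ⟨c', hc'⟩ := lower hD N
  obtain ⟨a0, ha0⟩ := exists_big 4 (c + c' + B)
  refine ⟨Nat.bits (is (mm a0 + a0 + 1)), fun X hX hcase => ?_⟩
  have h1 := hc X hX hcase a0
  have h2 := hc' (is (mm a0 + a0 + 1))
  have h3 := is_spec (mm a0 + a0 + 1)
  have h4 := ha0 (mm a0 + a0 + 1) (by omega)
  omega

end Pool.Agent.X234.OM
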