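import Pool.Agent.Helper446.Comp
import Pool.Agent.Helper750.DC.CP
import Pool.Agent.Helper760.Kolm

/-!
Oracle machines, given by consistent r.e. sets of axioms; a universal oracle machine; plain
complexity relative to an oracle.
-/

set_option autoImplicit false

namespace Pool.Agent.X234.OM

open Encodable Nat.Partrec Pool.Agent.Helper446.RE Pool.Agent.Helper750.DC
open Pool.Agent.Helper760.Kolm

/-- strings -/
abbrev Str := List Bool

/-- the initial segment of length `k` of the oracle `X` -/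
def ini (X : ℕ → Bool) (k : ℕ) : Str := (List.range k).map X

/-- `W τ p s` means: there is an axiom saying that the machine outputs `s` for the program `p` if
`τ` is an initial segment of the oracle. `Out W X p s` means that the machine outputs `s` for the
program `p` and the oracle `X`. -/
def Out (W : Str → Str → Str → Prop) (X : ℕ → Bool) (p s : Str) : Prop := ∃ k, W (ini X k) p s

/-- an oracle machine: a recursively enumerable set of axioms which give for each oracle and each
program at most one output -/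
def OracleMachine (W : Str → Str → Str → Prop) : Prop :=
  (REPred fun q : Str × Str × Str => W q.1 q.2.1 q.2.2) ∧
    ∀ X p s s', Out W X p s → Out W X p s' → s = s'

/-- a universal (optimal) oracle machine -/
def Universal (W : Str → Str → Str → Prop) : Prop :=
  OracleMachine W ∧ ∀ W' : Str → Str → Str → Prop, OracleMachine W' →
    ∃ c : ℕ, ∀ X p s, Out W' X p s → ∃ q : Str, q.length ≤ p.length + c ∧ Out W X q s

/-- plain complexity of `s` relative to `X`, for the oracle machine `W` -/
noncomputable def CX (W : Str → Str → Str → Prop) (X : ℕ → Bool) (s : Str) : ℕ :=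
  sInf {n | ∃ p : Str, p.length = n ∧ Out W X p s}

@[simp] theorem length_ini (X : ℕ → Bool) (k : ℕ) : (ini X k).length = k := by simp [ini]

theorem take_ini (X : ℕ → Bool) {j k : ℕ} (h : j ≤ k) : (ini X k).take j = ini X j := by
  unfold ini
  rw [← List.map_take, List.take_range, min_eq_left h]

theorem getElem_ini (X : ℕ → Bool) {j k : ℕ} (h : j < k) : (ini X k)[j]? = some (X j) := by
  unfold ini
  rw [List.getElem?_map, List.getElem?_range h]
  rfl

theorem CX_le {W : Str → Str → Str → Prop} {X : ℕ → Bool} {p s : Str} (h : Out W X p s) :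
    CX W X s ≤ p.length := Nat.sInf_le ⟨p, rfl, h⟩

theorem CX_sim {W : Str → Str → Str → Prop} (hW : Universal W) {W' : Str → Str → Str → Prop}
    (hW' : OracleMachine W') : ∃ c : ℕ, ∀ X p s, Out W' X p s → CX W X s ≤ p.length + c := by
  obtain ⟨c, hc⟩ := hW.2 W' hW'
  refine ⟨c, fun X p s h => ?_⟩
  obtain ⟨q, hq, hq2⟩ := hc X p s h
  exact (CX_le hq2).trans hq

/-- the identity machine -/
theorem idMachine : OracleMachine fun _ p s => p = s := by
  refine ⟨?_, ?_⟩
  · exact Pool.Agent.Helper446.RE.eq (by fun_prop) (by fun_prop)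
  · rintro X p s s' ⟨_, h⟩ ⟨_, h'⟩
    exact h.symm.trans h'

theorem CX_len {W : Str → Str → Str → Prop} (hW : Universal W) :
    ∃ c : ℕ, ∀ X s, CX W X s ≤ s.length + c := by
  obtain ⟨c, hc⟩ := CX_sim hW idMachine
  exact ⟨c, fun X s => hc X s s ⟨0, rfl⟩⟩

/-! ### a universal oracle machine -/

/-- something is found at step `n` -/
def Fd (e n : ℕ) (τ p s : Str) : Prop :=
  ∃ j < n + 1, wst (Str × Str × Str) e n (τ.take j, p, s) = true

/-- the axioms of the universal machine -/
def UW (τ q s : Str) : Prop :=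
  ∃ n < τ.length + 1, (encode s < n ∧ Fd (ones q) n τ (afterOnes q) s) ∧
    (∀ s' : Str, encode s' < encode s → ¬ Fd (ones q) n τ (afterOnes q) s') ∧
    ∀ n' < n, ∀ s' : Str, encode s' < n' → ¬ Fd (ones q) n' τ (afterOnes q) s'

theorem Fd_comp {α : Type*} [Primcodable α] {e n : α → ℕ} {τ p s : α → Str} (he : Computable e)
    (hn : Computable n) (hτ : Computable τ) (hp : Computable p) (hs : Computable s) :
    ComputablePred fun a => Fd (e a) (n a) (τ a) (p a) (s a) := by
  unfold Fd
  refine cp_ex_lt (p := fun a j => wst (Str × Str × Str) (e a) (n a) ((τ a).take j, p a, s a) = true)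
    ?_ (by fun_prop)
  refine cp_eq ?_ (Computable.const true)
  have h1 : Computable fun x : α × ℕ => (τ x.1).take x.2 := by
    have ha : Computable fun x : α × ℕ => x.2 := by fun_prop
    have hb : Computable fun x : α × ℕ => τ x.1 := by fun_prop
    exact (Primrec.list_take.to_comp).comp ha hb
  exact (wst_comp (α := Str × Str × Str)).comp
    (((by fun_prop : Computable fun x : α × ℕ => e x.1).pair
      (by fun_prop : Computable fun x : α × ℕ => n x.1)).pair
      (h1.pair (by fun_prop : Computable fun x : α × ℕ => (p x.1, s x.1))))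

theorem UW_re : REPred fun q : Str × Str × Str => UW q.1 q.2.1 q.2.2 := by
  have ho : Computable ones := primrec_ones.to_comp
  have ha : Computable afterOnes := primrec_afterOnes.to_comp
  unfold UW
  refine (cp_ex_lt (p := fun (q : Str × Str × Str) n =>
    (encode q.2.2 < n ∧ Fd (ones q.2.1) n q.1 (afterOnes q.2.1) q.2.2) ∧
    (∀ s' : Str, encode s' < encode q.2.2 → ¬ Fd (ones q.2.1) n q.1 (afterOnes q.2.1) s') ∧
    ∀ n' < n, ∀ s' : Str, encode s' < n' → ¬ Fd (ones q.2.1) n' q.1 (afterOnes q.2.1) s') ?_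
    (by fun_prop)).to_re
  refine cp_and (cp_and (cp_lt (by fun_prop) (by fun_prop))
    (Fd_comp (by fun_prop) (by fun_prop) (by fun_prop) (by fun_prop) (by fun_prop))) (cp_and ?_ ?_)
  · refine cp_all_code (p := fun (x : (Str × Str × Str) × ℕ) (s' : Str) =>
      ¬ Fd (ones x.1.2.1) x.2 x.1.1 (afterOnes x.1.2.1) s') ?_ (by fun_prop)
    exact cp_not (Fd_comp (by fun_prop) (by fun_prop) (by fun_prop) (by fun_prop) (by fun_prop))
  · refine cp_all_lt (p := fun (x : (Str × Str × Str) × ℕ) n' => ∀ s' : Str, encode s' < n' →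
      ¬ Fd (ones x.1.2.1) n' x.1.1 (afterOnes x.1.2.1) s') ?_ (by fun_prop)
    refine cp_all_code (p := fun (x : ((Str × Str × Str) × ℕ) × ℕ) (s' : Str) =>
      ¬ Fd (ones x.1.1.2.1) x.2 x.1.1.1 (afterOnes x.1.1.2.1) s') ?_ (by fun_prop)
    exact cp_not (Fd_comp (by fun_prop) (by fun_prop) (by fun_prop) (by fun_prop) (by fun_prop))

/-- found for an infinite oracle -/
def FX (e : ℕ) (X : ℕ → Bool) (p : Str) (n : ℕ) (s : Str) : Prop :=
  ∃ j < n + 1, wst (Str × Str × Str) e n (ini X j, p, s) = true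

theorem Fd_ini {e n k : ℕ} {X : ℕ → Bool} {p s : Str} (h : n ≤ k) :
    Fd e n (ini X k) p s ↔ FX e X p n s := by
  unfold Fd FX
  constructor
  · rintro ⟨j, hj, h1⟩
    rw [take_ini X (by omega)] at h1
    exact ⟨j, hj, h1⟩
  · rintro ⟨j, hj, h1⟩
    refine ⟨j, hj, ?_⟩
    rw [take_ini X (by omega)]
    exact h1

theorem Out_UW {X : ℕ → Bool} {q s : Str} : Out UW X q s ↔ ∃ n,
    (encode s < n ∧ FX (ones q) X (afterOnes q) n s) ∧
    (∀ s' : Str, encode s' < encode s → ¬ FX (ones q) X (afterOnes q) n s') ∧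
    ∀ n' < n, ∀ s' : Str, encode s' < n' → ¬ FX (ones q) X (afterOnes q) n' s' := by
  constructor
  · rintro ⟨k, n, hn, ⟨h1, h2⟩, h3, h4⟩
    rw [length_ini] at hn
    refine ⟨n, ⟨h1, (Fd_ini (by omega)).1 h2⟩, fun s' hs' h => ?_, fun n' hn' s' hs' h => ?_⟩
    · exact h3 s' hs' ((Fd_ini (by omega)).2 h)
    · exact h4 n' hn' s' hs' ((Fd_ini (by omega)).2 h)
  · rintro ⟨n, ⟨h1, h2⟩, h3, h4⟩
    refine ⟨n, n, by simp, ⟨h1, (Fd_ini le_rfl).2 h2⟩, fun s' hs' h => ?_,
      fun n' hn' s' hs' h => ?_⟩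
    · exact h3 s' hs' ((Fd_ini le_rfl).1 h)
    · exact h4 n' hn' s' hs' ((Fd_ini hn'.le).1 h)

theorem UW_machine : OracleMachine UW := by
  refine ⟨UW_re, fun X p s s' h h' => ?_⟩
  obtain ⟨n, ⟨h1, h2⟩, h3, h4⟩ := Out_UW.1 h
  obtain ⟨n', ⟨h1', h2'⟩, h3', h4'⟩ := Out_UW.1 h'
  have hn : n = n' := by
    rcases lt_trichotomy n n' with hlt | heq | hlt
    · exact absurd h2 (h4' n hlt s h1)
    · exact heq
    · exact absurd h2' (h4 n' hlt s' h1')
  subst hn
  apply Encodable.encode_injective
  rcases lt_trichotomy (encode s) (encode s') with hlt | heq | hlt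
  · exact absurd h2 (h3' s hlt)
  · exact heq
  · exact absurd h2' (h3 s' hlt)

theorem UW_universal : Universal UW := by
  classical
  refine ⟨UW_machine, fun W' hW' => ?_⟩
  obtain ⟨e, he⟩ := wst_univ hW'.1
  refine ⟨e + 1, fun X p s hs => ⟨List.replicate e true ++ false :: p, by simp; omega, ?_⟩⟩
  have hFX : ∀ n s', FX e X p n s' → s' = s := by
    rintro n s' ⟨j, -, hj⟩
    exact hW'.2 X p s' s ⟨j, (he (ini X j, p, s')).2 ⟨n, hj⟩⟩ hs
  obtain ⟨k, hk⟩ := hs
  obtain ⟨t, ht⟩ := (he (ini X k, p, s)).1 hk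
  have hex : ∃ n, encode s < n ∧ FX e X p n s :=
    ⟨max (max k t) (encode s + 1), by omega, k, by omega, wst_mono (by omega) ht⟩
  rw [Out_UW, ones_replicate, afterOnes_replicate]
  refine ⟨Nat.find hex, Nat.find_spec hex, fun s' hs' h => ?_, fun n' hn' s' hs' h => ?_⟩
  · rw [hFX _ _ h] at hs'
    exact lt_irrefl _ hs'
  · have := hFX _ _ h
    subst this
    exact Nat.find_min hex hn' ⟨hs', h⟩

theorem exists_universal : ∃ W, Universal W := ⟨UW, UW_universal⟩

end Pool.Agent.X234.OM
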